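import Mathlib
import Pool.Agent.Lib_helper30.SylBox

/-!
# Algebra for the zero-one law: scaling and pull-back of non-free parameters
-/

set_option autoImplicit false

namespace Pool.Agent.Lib_helper33.Zo

open Pool.Agent.Lib_helper30.Syl Matrix Filter Topology Polynomial

/-- multiply the exponents of `B` by `n` -/
def sc (n : ℤ) : Bool → List ℤ → List ℤ
  | _, [] => []
  | true, m :: l => m :: sc n false l
  | false, m :: l => (n * m) :: sc n true l

lemma sc_ne_nil (n : ℤ) (t : Bool) (l : List ℤ) (hl : l ≠ []) : sc n t l ≠ [] := by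
  cases l with
  | nil => exact absurd rfl hl
  | cons m l => cases t <;> simp [sc]

lemma sc_length (n : ℤ) (l : List ℤ) : ∀ t : Bool, (sc n t l).length = l.length := by
  induction l with
  | nil => intro t; cases t <;> rfl
  | cons m l ih => intro t; cases t <;> simp [sc, ih]

lemma sc_ne_zero {n : ℤ} (hn : n ≠ 0) (l : List ℤ) : ∀ t : Bool, (∀ m ∈ l, m ≠ 0) →
    ∀ m ∈ sc n t l, m ≠ 0 := by
  induction l with
  | nil => intro t _ m hm; cases t <;> simp [sc] at hm
  | cons j l ih =>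
    intro t hl m hm
    have h1 := fun t => ih t (fun i hi => hl i (List.mem_cons_of_mem _ hi))
    have hj := hl j (List.mem_cons_self ..)
    cases t with
    | true =>
      simp only [sc, List.mem_cons] at hm
      rcases hm with rfl | hm
      · exact hj
      · exact h1 false m hm
    | false =>
      simp only [sc, List.mem_cons] at hm
      rcases hm with rfl | hm
      · exact mul_ne_zero hn hj
      · exact h1 true m hm

lemma M_sc {n : ℤ} (hn : n ≠ 0) (q : ℝ) (l : List ℤ) : ∀ t : Bool,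
    M (q / n) t (sc n t l) = M q t l := by
  have hn' : (n : ℝ) ≠ 0 := by exact_mod_cast hn
  induction l with
  | nil => intro t; cases t <;> rfl
  | cons m l ih =>
    intro t
    cases t with
    | true =>
      simp only [sc, M, Bool.not_true]
      rw [ih false]
      rfl
    | false =>
      simp only [sc, M, Bool.not_false]
      rw [ih true]
      congr 2
      ext i j
      fin_cases i <;> fin_cases j <;> simp [E]
      field_simp

lemma nonFree_div {n : ℤ} (hn : n ≠ 0) {q : ℝ} (h : NonFree q) : NonFree (q / n) := by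
  obtain ⟨L, hL⟩ := mem_R_of_nonFree h
  rw [mem_R_iff] at hL
  obtain ⟨t, l, h1, h2, h3, h4⟩ := hL
  apply nonFree_of_mem_R (L := (sc n t l).length)
  rw [mem_R_iff]
  refine ⟨t, sc n t l, sc_ne_nil n t l h1, le_refl _, sc_ne_zero hn l t h3, ?_⟩
  have e1 := alt_coe q l t
  have e2 := alt_coe (q / n) (sc n t l) t
  rw [M_sc hn, ← e1, h4] at e2
  exact Subtype.ext e2

lemma algebraic_of_ratpoly {q : ℝ} {P : ℚ[X]} {D : ℕ} (hp : P ≠ 0) (hd : P.natDegree ≤ D)
    (h3 : aeval q P = 0) : IsAlgebraic ℚ q ∧ (minpoly ℚ q).natDegree ≤ D := by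
  refine ⟨⟨P, hp, h3⟩, ?_⟩
  have h5 := minpoly.dvd ℚ q h3
  exact (natDegree_le_of_dvd h5 hp).trans hd

lemma rdeg_comp {q r : ℝ} {d : ℕ} (hr : IsAlgebraic ℚ r) (hd : (minpoly ℚ r).natDegree ≤ d)
    {F : ℚ[X]} {D : ℕ} (hF0 : 0 < F.natDegree) (hF : F.natDegree ≤ D) (hq : aeval q F = r) :
    IsAlgebraic ℚ q ∧ (minpoly ℚ q).natDegree ≤ D * d := by
  have h1 : minpoly ℚ r ≠ 0 := minpoly.ne_zero hr.isIntegral
  apply algebraic_of_ratpoly (P := (minpoly ℚ r).comp F)
  · intro h0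
    rw [Polynomial.comp_eq_zero_iff] at h0
    rcases h0 with h0 | ⟨-, h0⟩
    · exact h1 h0
    · rw [h0, natDegree_C] at hF0
      exact lt_irrefl _ hF0
  · rw [natDegree_comp, mul_comm]
    exact Nat.mul_le_mul hF hd
  · rw [aeval_comp, hq, minpoly.aeval]

lemma rdeg_div {n : ℤ} (hn : n ≠ 0) {q : ℝ} {d : ℕ} (h : q ∈ Rdeg d) : q / n ∈ Rdeg d := by
  obtain ⟨h1, h2, h3⟩ := h
  have hn' : (n : ℚ) ≠ 0 := by exact_mod_cast hn
  have hn'' : (n : ℝ) ≠ 0 := by exact_mod_cast hn
  have hdeg : (C (n : ℚ) * X : ℚ[X]).natDegree = 1 := natDegree_C_mul_X _ hn'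
  have h4 := rdeg_comp (q := q / n) h1 h2 (F := C (n : ℚ) * X) (D := 1) (by rw [hdeg]; norm_num)
    hdeg.le (by
      simp
      field_simp)
  rw [one_mul] at h4
  exact ⟨h4.1, h4.2, nonFree_div hn h3⟩

lemma closure_div {n : ℤ} (hn : n ≠ 0) {q : ℝ} {d : ℕ} (h : q ∈ closure (Rdeg d)) :
    q / n ∈ closure (Rdeg d) := by
  have hc : Continuous (fun x : ℝ => x / n) := continuous_id.div_const _
  exact map_mem_closure (f := fun x : ℝ => x / n) hc h (fun x hx => rdeg_div hn hx)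

lemma rdeg_mono {d e : ℕ} (h : d ≤ e) : Rdeg d ⊆ Rdeg e :=
  fun _ hq => ⟨hq.1, hq.2.1.trans h, hq.2.2⟩

/-- the corner entry of `B^{-1} (A B^{-1})^j` as an integer polynomial -/
noncomputable def zp (j : ℕ) : ℤ[X] := hot (X : ℤ[X]) false (ww 1 j)

/-- the corner entry -/
noncomputable def zz (j : ℕ) (q : ℝ) : ℝ := Pool.Agent.Lib_helper30.Syl.row (ww 1 j) q 0

lemma zz_eq (j : ℕ) (q : ℝ) : zz j q = aeval q (zp j) := row_eq_aeval _ (ww_endT 1 j) q

lemma zz_trig (j : ℕ) (θ : ℝ) :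
    Real.sin θ * zz j (2 - 2 * Real.cos θ) =
      -(2 - 2 * Real.cos θ) * Real.sin ((j + 1) * θ) :=
  (ww_trig 1 θ (2 - 2 * Real.cos θ) (by push_cast; ring) j).1

lemma row_zero (j : ℕ) : Pool.Agent.Lib_helper30.Syl.row (ww 1 j) 0 = ![0, 1] := by
  induction j with
  | zero =>
    unfold Pool.Agent.Lib_helper30.Syl.row
    simp only [ww, M, mul_one]
    rw [step_false]
    simp [vv]
  | succ j ih =>
    simp only [ww]
    rw [row_append _ (ww_endT 1 j) 1 (-1) 0, ih]
    simp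

lemma zp_ne_zero (j : ℕ) : zp j ≠ 0 := (hot_poly false _ (ww_ne_zero one_ne_zero j)).1

lemma zp_natDegree (j : ℕ) : (zp j).natDegree ≤ j + 1 := by
  refine (hot_poly false _ (ww_ne_zero one_ne_zero j)).2.trans ?_
  rw [ww_length]
  omega

/-- the pull-back polynomial -/
noncomputable def fp (j : ℕ) : ℚ[X] := ((zp j).map (Int.castRingHom ℚ)) ^ 2

lemma fp_aeval (j : ℕ) (q : ℝ) : aeval q (fp j) = (zz j q) ^ 2 := by
  rw [fp, map_pow, zz_eq]
  congr 1
  have e : (algebraMap ℚ ℝ).comp (Int.castRingHom ℚ) = Int.castRingHom ℝ := RingHom.ext_int _ _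
  simp [aeval_def, eval₂_map, e]

lemma fp_natDegree_le (j : ℕ) : (fp j).natDegree ≤ 2 * (j + 1) := by
  rw [fp, natDegree_pow]
  exact Nat.mul_le_mul_left 2 ((natDegree_map_le).trans (zp_natDegree j))

lemma fp_natDegree_pos (j : ℕ) : 0 < (fp j).natDegree := by
  by_contra hne
  have h0 : (fp j).natDegree = 0 := by omega
  rw [natDegree_eq_zero] at h0
  obtain ⟨c, hc⟩ := h0
  have h1 : aeval (0 : ℝ) (fp j) = 0 := by
    rw [fp_aeval, zz, row_zero]
    simp
  rw [← hc, aeval_C] at h1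
  have h2 : c = 0 := by
    have : (algebraMap ℚ ℝ) c = (c : ℝ) := rfl
    rw [this] at h1
    exact_mod_cast h1
  rw [h2, map_zero] at hc
  have h3 : (zp j).map (Int.castRingHom ℚ) = 0 := by
    rw [fp] at hc
    exact pow_eq_zero_iff two_ne_zero |>.1 hc.symm
  rw [Polynomial.map_eq_zero_iff (RingHom.injective_int _)] at h3
  exact zp_ne_zero j h3

/-- pull-back of a non-free parameter -/
lemma pull {j d : ℕ} {q : ℝ} (hz : zz j q ≠ 0) (h : (zz j q) ^ 2 ∈ Rdeg d) :
    q ∈ Rdeg (2 * (j + 1) * d) := by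
  obtain ⟨h1, h2, h3⟩ := h
  obtain ⟨h4, h5⟩ := rdeg_comp h1 h2 (fp_natDegree_pos j) (fp_natDegree_le j) (fp_aeval j q)
  exact ⟨h4, h5, transfer _ (ww_ne_zero one_ne_zero j) (ww_endT 1 j) q hz h3⟩

/-- pull-back to the closure at a point where the derivative does not vanish -/
lemma pull_closure {j d : ℕ} {q : ℝ} (hd : aeval q (derivative (fp j)) ≠ 0)
    (h : (zz j q) ^ 2 ∈ closure (Rdeg d)) : q ∈ closure (Rdeg (2 * (j + 1) * d)) := by
  have hder : HasStrictDerivAt (fun x : ℝ => aeval x (fp j)) (aeval q (derivative (fp j))) q :=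
    (fp j).hasStrictDerivAt_aeval q
  have hmap := hder.map_nhds_eq hd
  rw [mem_closure_iff_nhds]
  intro U hU
  -- the corner entry does not vanish near `q`
  have hz : zz j q ≠ 0 := by
    intro h0
    apply hd
    have e1 : aeval q (zp j) = 0 := by rw [← zz_eq, h0]
    have e2 : aeval q ((zp j).map (Int.castRingHom ℚ)) = 0 := by
      rw [← e1]
      have e : (algebraMap ℚ ℝ).comp (Int.castRingHom ℚ) = Int.castRingHom ℝ :=
        RingHom.ext_int _ _
      simp [aeval_def, eval₂_map, e]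
    rw [fp, derivative_pow]
    simp [e2]
  have hcont : Continuous (fun x => zz j x) := row_continuous _ (ww_endT 1 j)
  have hV : {x | zz j x ≠ 0} ∈ 𝓝 q := (isOpen_ne.preimage hcont).mem_nhds hz
  have hUV : U ∩ {x | zz j x ≠ 0} ∈ 𝓝 q := inter_mem hU hV
  have h2 : (fun x : ℝ => aeval x (fp j)) '' (U ∩ {x | zz j x ≠ 0}) ∈
      𝓝 (aeval q (fp j)) := by
    rw [← hmap]
    exact image_mem_map hUV
  rw [fp_aeval] at h2
  rw [mem_closure_iff_nhds] at h
  obtain ⟨r, ⟨x, ⟨hxU, hxz⟩, hxr⟩, hr⟩ := h _ h2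
  refine ⟨x, hxU, ?_⟩
  apply pull hxz
  have : aeval x (fp j) = r := hxr
  rw [← fp_aeval, this]
  exact hr

lemma finite_crit (j : ℕ) : {q : ℝ | aeval q (derivative (fp j)) = 0}.Finite := by
  have h0 : derivative (fp j) ≠ 0 := by
    intro h0
    rw [Polynomial.derivative_eq_zero] at h0
    have := fp_natDegree_pos j
    omega
  refine ((derivative (fp j)).rootSet_finite ℝ).subset ?_
  intro q hq
  rw [mem_rootSet]
  exact ⟨h0, hq⟩

end Pool.Agent.Lib_helper33.Zo
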