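import Mathlib

/-!
# Measure estimates for the zero-one law
-/

set_option autoImplicit false

namespace Pool.Agent.Lib_helper33.Zo

open MeasureTheory Set
open scoped ENNReal NNReal

lemma vol_image_le {f : ℝ → ℝ} {s : Set ℝ} {K : ℝ≥0} (h : LipschitzOnWith K f s) :
    volume (f '' s) ≤ K * volume s := by
  have := h.hausdorffMeasure_image_le (d := 1) zero_le_one
  rw [MeasureTheory.hausdorffMeasure_real] at this
  simpa using this

lemma vol_image_le' {f : ℝ → ℝ} {s : Set ℝ} {K : ℝ} (hK : 0 ≤ K)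
    (h : ∀ x ∈ s, ∀ y ∈ s, |f x - f y| ≤ K * |x - y|) :
    volume (f '' s) ≤ ENNReal.ofReal K * volume s := by
  have hL : LipschitzOnWith K.toNNReal f s := by
    apply LipschitzOnWith.of_dist_le_mul
    intro x hx y hy
    rw [Real.dist_eq, Real.dist_eq, Real.coe_toNNReal K hK]
    exact h x hx y hy
  exact vol_image_le hL

lemma vol_le_of_expand {f : ℝ → ℝ} {s : Set ℝ} {m : ℝ} (hm : 0 < m)
    (h : ∀ x ∈ s, ∀ y ∈ s, m * |x - y| ≤ |f x - f y|) :
    volume s ≤ ENNReal.ofReal (1 / m) * volume (f '' s) := by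
  have hinj : InjOn f s := by
    intro x hx y hy hxy
    have := h x hx y hy
    rw [hxy, sub_self, abs_zero] at this
    have h2 : |x - y| ≤ 0 := by
      by_contra hne
      push Not at hne
      have := mul_pos hm hne
      linarith
    have h3 := abs_nonpos_iff.1 h2
    linarith
  have hleft := hinj.leftInvOn_invFunOn
  set g := Function.invFunOn f s with hg
  have himg : g '' (f '' s) = s := hleft.image_image
  have := vol_image_le' (f := g) (s := f '' s) (K := 1 / m) (by positivity) (by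
    rintro _ ⟨x, hx, rfl⟩ _ ⟨y, hy, rfl⟩
    rw [hleft hx, hleft hy]
    have := h x hx y hy
    rw [div_mul_eq_mul_div, one_mul, le_div_iff₀ hm]
    linarith)
  rw [himg] at this
  exact this

lemma count_le {T : Set ℝ} (F : Finset ℕ) (Tn : ℕ → Set ℝ)
    (hTn : ∀ n, MeasurableSet (Tn n)) (hT : MeasurableSet T) (c : ℝ≥0∞)
    (h : ∀ u ∈ T, c ≤ ∑ n ∈ F, (Tn n).indicator 1 u) :
    c * volume T ≤ ∑ n ∈ F, volume (Tn n) := by
  calc c * volume T = ∫⁻ _ in T, c := by rw [setLIntegral_const]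
    _ ≤ ∫⁻ u in T, ∑ n ∈ F, (Tn n).indicator 1 u := by
        apply setLIntegral_mono' hT
        intro u hu
        exact h u hu
    _ ≤ ∫⁻ u, ∑ n ∈ F, (Tn n).indicator 1 u := setLIntegral_le_lintegral _ _
    _ = ∑ n ∈ F, ∫⁻ u, (Tn n).indicator 1 u := by
        apply lintegral_finsetSum
        intro n _
        exact measurable_one.indicator (hTn n)
    _ = ∑ n ∈ F, volume (Tn n) := by
        apply Finset.sum_congr rfl
        intro n _
        exact lintegral_indicator_one (hTn n)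

lemma sum_inv_sqrt (M : ℕ) : ∑ n ∈ Finset.Icc 1 M, 1 / (2 * Real.sqrt n) ≤ Real.sqrt M := by
  induction M with
  | zero => simp
  | succ M ih =>
    rw [Finset.sum_Icc_succ_top (by omega)]
    have h1 : 0 < Real.sqrt ((M + 1 : ℕ) : ℝ) := Real.sqrt_pos.2 (by positivity)
    have h2 : Real.sqrt (M : ℝ) + 1 / (2 * Real.sqrt ((M + 1 : ℕ) : ℝ)) ≤
        Real.sqrt ((M + 1 : ℕ) : ℝ) := by
      set a := Real.sqrt (M : ℝ) with ha
      set b := Real.sqrt ((M + 1 : ℕ) : ℝ) with hb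
      have ha0 : 0 ≤ a := Real.sqrt_nonneg _
      have ha2 : a ^ 2 = M := Real.sq_sqrt (by positivity)
      have hb2 : b ^ 2 = M + 1 := by
        rw [hb, Real.sq_sqrt (by positivity)]
        push_cast
        ring
      have hab : a ≤ b := Real.sqrt_le_sqrt (by push_cast; linarith)
      have h3 : (b - a) * (2 * b) ≥ 1 := by nlinarith
      have h4 : 1 / (2 * b) ≤ b - a := by
        rw [div_le_iff₀ (by positivity)]
        linarith
      linarith
    linarith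

/-- the number of multiples of `x` in an interval -/
lemma count_mult {a b : ℝ} (ha : 0 < a) (hab : a < b) {x : ℝ} (hx : 0 < x)
    (hx2 : 2 * x ≤ b - a) {M : ℕ} (hM : b / x ≤ M + 1) :
    (b - a) / (2 * x) ≤ (((Finset.Icc 1 M).filter fun n : ℕ => a < n * x ∧ n * x < b).card : ℝ) := by
  have hsub : Finset.Ioo ⌊a / x⌋₊ ⌈b / x⌉₊ ⊆
      (Finset.Icc 1 M).filter fun n : ℕ => a < n * x ∧ n * x < b := by
    intro n hn
    rw [Finset.mem_Ioo] at hn
    obtain ⟨h1, h2⟩ := hn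
    have h3 : a / x < n := (Nat.floor_lt (by positivity)).1 h1
    have h4 : (n : ℝ) < b / x := Nat.lt_ceil.1 h2
    rw [Finset.mem_filter, Finset.mem_Icc]
    refine ⟨⟨by omega, ?_⟩, ?_, ?_⟩
    · have h5 : (n : ℝ) < ((M + 1 : ℕ) : ℝ) := by
        push_cast
        exact h4.trans_le hM
      have := Nat.cast_lt.1 h5
      omega
    · rw [div_lt_iff₀ hx] at h3
      exact h3
    · rw [lt_div_iff₀ hx] at h4
      exact h4
  have h1 := Finset.card_le_card hsub
  rw [Nat.card_Ioo] at h1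
  have h2 : (b / x - a / x - 1 : ℝ) ≤ ((⌈b / x⌉₊ - ⌊a / x⌋₊ - 1 : ℕ) : ℝ) := by
    have h3 : b / x ≤ (⌈b / x⌉₊ : ℝ) := Nat.le_ceil _
    have h4 : (⌊a / x⌋₊ : ℝ) ≤ a / x := Nat.floor_le (by positivity)
    have h5 : (⌈b / x⌉₊ : ℝ) ≤ ((⌈b / x⌉₊ - ⌊a / x⌋₊ - 1 : ℕ) : ℝ) + ⌊a / x⌋₊ + 1 := by
      have : ⌈b / x⌉₊ ≤ (⌈b / x⌉₊ - ⌊a / x⌋₊ - 1) + ⌊a / x⌋₊ + 1 := by omega
      exact_mod_cast this
    linarith
  have h3 : (b - a) / (2 * x) ≤ b / x - a / x - 1 := by
    have e : b / x - a / x - 1 - (b - a) / (2 * x) = ((b - a) - 2 * x) / (2 * x) := by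
      field_simp
      ring
    have : 0 ≤ ((b - a) - 2 * x) / (2 * x) := div_nonneg (by linarith) (by linarith)
    linarith
  have h4 : ((⌈b / x⌉₊ - ⌊a / x⌋₊ - 1 : ℕ) : ℝ) ≤
      (((Finset.Icc 1 M).filter fun n : ℕ => a < n * x ∧ n * x < b).card : ℝ) := by
    exact_mod_cast h1
  linarith

section sq

variable {N : Set ℝ} {a b : ℝ}

lemma vol_Tn (ha : 0 < a) {n : ℕ} (hn : 1 ≤ n) :
    volume {u : ℝ | 0 < u ∧ (n : ℝ) * u ^ 2 ∈ N ∩ Ioo a b} ≤
      ENNReal.ofReal (1 / (2 * Real.sqrt n) / Real.sqrt a) * volume (N ∩ Ioo a b) := by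
  have hn0 : (0 : ℝ) < n := by exact_mod_cast hn
  have hsn : 0 < Real.sqrt n := Real.sqrt_pos.2 hn0
  have hsa : 0 < Real.sqrt a := Real.sqrt_pos.2 ha
  have h1 := vol_le_of_expand (f := fun u : ℝ => (n : ℝ) * u ^ 2)
    (s := {u : ℝ | 0 < u ∧ (n : ℝ) * u ^ 2 ∈ N ∩ Ioo a b}) (m := 2 * Real.sqrt n * Real.sqrt a)
    (by positivity) (by
      have key : ∀ x : ℝ, 0 < x → a < n * x ^ 2 → Real.sqrt n * Real.sqrt a ≤ n * x := by
        intro x hx hx2
        rw [← Real.sqrt_mul hn0.le]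
        apply Real.sqrt_le_iff.2
        refine ⟨by positivity, ?_⟩
        nlinarith
      rintro x ⟨hx, hxN, hx1, -⟩ y ⟨hy, hyN, hy1, -⟩
      have e : (n : ℝ) * x ^ 2 - n * y ^ 2 = (n * x + n * y) * (x - y) := by ring
      change _ ≤ |(n : ℝ) * x ^ 2 - n * y ^ 2|
      have hpos : 0 < (n : ℝ) * x + n * y := by positivity
      rw [e, abs_mul, abs_of_pos hpos]
      apply mul_le_mul_of_nonneg_right _ (abs_nonneg _)
      linarith [key x hx hx1, key y hy hy1])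
  have h2 : (fun u : ℝ => (n : ℝ) * u ^ 2) '' {u : ℝ | 0 < u ∧ (n : ℝ) * u ^ 2 ∈ N ∩ Ioo a b} ⊆
      N ∩ Ioo a b := by
    rintro _ ⟨u, hu, rfl⟩
    exact hu.2
  refine h1.trans ?_
  rw [div_div]
  exact mul_le_mul_right (measure_mono h2) _

lemma meas_Tn (hN : MeasurableSet N) (n : ℕ) :
    MeasurableSet {u : ℝ | 0 < u ∧ (n : ℝ) * u ^ 2 ∈ N ∩ Ioo a b} := by
  apply MeasurableSet.inter
  · exact measurableSet_Ioi
  · exact (hN.inter measurableSet_Ioo).preimage
      (((continuous_id.pow 2).const_mul (n : ℝ) : Continuous fun u : ℝ => (n : ℝ) * u ^ 2)).measurable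

lemma vol_T (hN : MeasurableSet N) (hmul : ∀ x ∈ N, ∀ n : ℕ, 1 ≤ n → (n : ℝ) * x ∈ N)
    (ha : 0 < a) (hab : a < b) {v : ℝ} (hv : 0 < v) (hv2 : 2 * v ^ 2 ≤ b - a) :
    volume ({u : ℝ | u ^ 2 ∈ N} ∩ Ioc (v / 2) v) ≤
      ENNReal.ofReal (4 * v * (Real.sqrt b / Real.sqrt a) / (b - a)) * volume (N ∩ Ioo a b) := by
  have hb : 0 < b := ha.trans hab
  have hsa : 0 < Real.sqrt a := Real.sqrt_pos.2 ha
  have hsb : 0 < Real.sqrt b := Real.sqrt_pos.2 hb
  have hba : 0 < b - a := by linarith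
  set M : ℕ := ⌊4 * b / v ^ 2⌋₊ with hM
  have hmT : MeasurableSet ({u : ℝ | u ^ 2 ∈ N} ∩ Ioc (v / 2) v) := by
    apply MeasurableSet.inter _ measurableSet_Ioc
    exact hN.preimage ((continuous_id.pow 2 : Continuous fun u : ℝ => u ^ 2)).measurable
  have h1 := count_le (T := {u : ℝ | u ^ 2 ∈ N} ∩ Ioc (v / 2) v) (Finset.Icc 1 M)
    (fun n => {u : ℝ | 0 < u ∧ (n : ℝ) * u ^ 2 ∈ N ∩ Ioo a b}) (meas_Tn hN) hmT
    (ENNReal.ofReal ((b - a) / (2 * v ^ 2))) (by
      rintro u ⟨hu, hu1, hu2⟩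
      have hu0 : 0 < u := by linarith
      have hx : 0 < u ^ 2 := by positivity
      have hxv : u ^ 2 ≤ v ^ 2 := by nlinarith
      have hvx : v ^ 2 / 4 ≤ u ^ 2 := by nlinarith
      have hbx : b / u ^ 2 ≤ M + 1 := by
        have h2 : b / u ^ 2 ≤ 4 * b / v ^ 2 := by
          rw [div_le_div_iff₀ hx (by positivity)]
          nlinarith
        exact h2.trans (Nat.lt_floor_add_one _).le
      have h3 := count_mult ha hab hx (by linarith) hbx
      have h4 : (b - a) / (2 * v ^ 2) ≤ (b - a) / (2 * u ^ 2) := by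
        apply div_le_div_of_nonneg_left hba.le (by positivity) (by linarith)
      have h5 : ENNReal.ofReal ((b - a) / (2 * v ^ 2)) ≤
          (((Finset.Icc 1 M).filter fun n : ℕ => a < n * u ^ 2 ∧ n * u ^ 2 < b).card : ℝ≥0∞) := by
        rw [← ENNReal.ofReal_natCast]
        exact ENNReal.ofReal_le_ofReal (h4.trans h3)
      refine h5.trans ?_
      rw [Finset.card_eq_sum_ones, Nat.cast_sum, Finset.sum_filter]
      apply Finset.sum_le_sum
      intro n hn
      rw [Finset.mem_Icc] at hn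
      by_cases hc : a < n * u ^ 2 ∧ n * u ^ 2 < b
      · rw [if_pos hc]
        have hmem : u ∈ {u : ℝ | 0 < u ∧ (n : ℝ) * u ^ 2 ∈ N ∩ Ioo a b} :=
          ⟨hu0, hmul _ hu n hn.1, hc⟩
        rw [indicator_of_mem hmem]
        simp
      · rw [if_neg hc]
        simp)
  have h2 : ∑ n ∈ Finset.Icc 1 M, volume {u : ℝ | 0 < u ∧ (n : ℝ) * u ^ 2 ∈ N ∩ Ioo a b} ≤
      ENNReal.ofReal (Real.sqrt M / Real.sqrt a) * volume (N ∩ Ioo a b) := by
    calc ∑ n ∈ Finset.Icc 1 M, volume {u : ℝ | 0 < u ∧ (n : ℝ) * u ^ 2 ∈ N ∩ Ioo a b}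
        ≤ ∑ n ∈ Finset.Icc 1 M, ENNReal.ofReal (1 / (2 * Real.sqrt n) / Real.sqrt a) *
            volume (N ∩ Ioo a b) := by
          apply Finset.sum_le_sum
          intro n hn
          rw [Finset.mem_Icc] at hn
          exact vol_Tn ha hn.1
      _ = ENNReal.ofReal (∑ n ∈ Finset.Icc 1 M, 1 / (2 * Real.sqrt n) / Real.sqrt a) *
            volume (N ∩ Ioo a b) := by
          rw [← Finset.sum_mul, ENNReal.ofReal_sum_of_nonneg]
          intro n _
          positivity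
      _ ≤ ENNReal.ofReal (Real.sqrt M / Real.sqrt a) * volume (N ∩ Ioo a b) := by
          apply mul_le_mul_left
          apply ENNReal.ofReal_le_ofReal
          rw [← Finset.sum_div]
          exact div_le_div_of_nonneg_right (sum_inv_sqrt M) hsa.le
  have h3 := h1.trans h2
  have hc0 : 0 < (b - a) / (2 * v ^ 2) := by positivity
  have h4 : volume ({u : ℝ | u ^ 2 ∈ N} ∩ Ioc (v / 2) v) ≤
      ENNReal.ofReal ((b - a) / (2 * v ^ 2))⁻¹ *
        (ENNReal.ofReal (Real.sqrt M / Real.sqrt a) * volume (N ∩ Ioo a b)) := by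
    rw [ENNReal.ofReal_inv_of_pos hc0]
    rw [← ENNReal.div_eq_inv_mul]
    rw [ENNReal.le_div_iff_mul_le (Or.inl (by simpa using hc0)) (Or.inl ENNReal.ofReal_ne_top)]
    rw [mul_comm]
    exact h3
  refine h4.trans ?_
  rw [← mul_assoc, ← ENNReal.ofReal_mul (by positivity)]
  apply mul_le_mul_left
  apply ENNReal.ofReal_le_ofReal
  have h5 : v * Real.sqrt M ≤ 2 * Real.sqrt b := by
    have h6 : (M : ℝ) ≤ 4 * b / v ^ 2 := Nat.floor_le (by positivity)
    have h7 : Real.sqrt M ≤ Real.sqrt (4 * b / v ^ 2) := Real.sqrt_le_sqrt h6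
    have h8 : Real.sqrt (4 * b / v ^ 2) = 2 * Real.sqrt b / v := by
      rw [Real.sqrt_div (by positivity), Real.sqrt_sq hv.le, Real.sqrt_mul (by norm_num),
        show (4 : ℝ) = 2 ^ 2 by norm_num, Real.sqrt_sq (by norm_num)]
    rw [h8] at h7
    calc v * Real.sqrt M ≤ v * (2 * Real.sqrt b / v) := mul_le_mul_of_nonneg_left h7 hv.le
      _ = 2 * Real.sqrt b := by field_simp
  have e1 : ((b - a) / (2 * v ^ 2))⁻¹ * (Real.sqrt M / Real.sqrt a) =
      (v * Real.sqrt M) * (2 * v / Real.sqrt a / (b - a)) := by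
    field_simp
  have e2 : 4 * v * (Real.sqrt b / Real.sqrt a) / (b - a) =
      (2 * Real.sqrt b) * (2 * v / Real.sqrt a / (b - a)) := by
    field_simp
    ring
  rw [e1, e2]
  exact mul_le_mul_of_nonneg_right h5 (by positivity)

lemma vol_S (hN : MeasurableSet N) (hmul : ∀ x ∈ N, ∀ n : ℕ, 1 ≤ n → (n : ℝ) * x ∈ N)
    (ha : 0 < a) (hab : a < b) {v : ℝ} (hv : 0 < v) (hv2 : 2 * v ^ 2 ≤ b - a) :
    volume ({u : ℝ | u ^ 2 ∈ N} ∩ Ioc 0 v) ≤
      ENNReal.ofReal (8 * v * (Real.sqrt b / Real.sqrt a) / (b - a)) * volume (N ∩ Ioo a b) := by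
  set V := volume ({u : ℝ | u ^ 2 ∈ N} ∩ Ioc 0 v) with hV
  have hVfin : V ≠ ∞ := by
    apply ne_of_lt
    calc V ≤ volume (Ioc (0 : ℝ) v) := measure_mono inter_subset_right
      _ < ∞ := by rw [Real.volume_Ioc]; exact ENNReal.ofReal_lt_top
  have h1 : volume ({u : ℝ | u ^ 2 ∈ N} ∩ Ioc 0 (v / 2)) ≤ ENNReal.ofReal (1 / 2) * V := by
    refine (vol_le_of_expand (f := fun u : ℝ => 2 * u) (m := 2) (by norm_num) ?_).trans ?_
    · intro x _ y _
      rw [← mul_sub, abs_mul, abs_of_pos (by norm_num : (0 : ℝ) < 2)]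
    · apply mul_le_mul_right
      apply measure_mono
      rintro _ ⟨u, ⟨hu, hu1, hu2⟩, rfl⟩
      refine ⟨?_, ?_, ?_⟩
      · have := hmul _ hu 4 (by norm_num)
        change (2 * u) ^ 2 ∈ N
        convert this using 1
        push_cast
        ring
      · change 0 < 2 * u
        linarith
      · change 2 * u ≤ v
        linarith
  have h2 := vol_T hN hmul ha hab hv hv2
  have h3 : V ≤ volume ({u : ℝ | u ^ 2 ∈ N} ∩ Ioc (v / 2) v) +
      volume ({u : ℝ | u ^ 2 ∈ N} ∩ Ioc 0 (v / 2)) := by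
    refine le_trans (measure_mono ?_) (measure_union_le _ _)
    rintro u ⟨hu, hu1, hu2⟩
    by_cases h : v / 2 < u
    · exact Or.inl ⟨hu, h, hu2⟩
    · exact Or.inr ⟨hu, hu1, not_lt.1 h⟩
  have h4 : V ≤ ENNReal.ofReal (4 * v * (Real.sqrt b / Real.sqrt a) / (b - a)) *
      volume (N ∩ Ioo a b) + ENNReal.ofReal (1 / 2) * V := h3.trans (add_le_add h2 h1)
  have h5 : ENNReal.ofReal (1 / 2) * V + ENNReal.ofReal (1 / 2) * V = V := by
    rw [← add_mul, ← ENNReal.ofReal_add (by norm_num) (by norm_num)]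
    norm_num
  have h6 : ENNReal.ofReal (1 / 2) * V ≠ ∞ := ENNReal.mul_ne_top ENNReal.ofReal_ne_top hVfin
  have h7 : ENNReal.ofReal (1 / 2) * V ≤
      ENNReal.ofReal (4 * v * (Real.sqrt b / Real.sqrt a) / (b - a)) * volume (N ∩ Ioo a b) := by
    nth_rewrite 1 [← h5] at h4
    exact (ENNReal.add_le_add_iff_right h6).1 h4
  calc V = 2 * (ENNReal.ofReal (1 / 2) * V) := by rw [two_mul, h5]
    _ ≤ 2 * (ENNReal.ofReal (4 * v * (Real.sqrt b / Real.sqrt a) / (b - a)) *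
        volume (N ∩ Ioo a b)) := mul_le_mul_right h7 _
    _ = ENNReal.ofReal (8 * v * (Real.sqrt b / Real.sqrt a) / (b - a)) *
        volume (N ∩ Ioo a b) := by
      rw [← mul_assoc]
      congr 1
      have : (2 : ℝ≥0∞) = ENNReal.ofReal 2 := by simp
      rw [this, ← ENNReal.ofReal_mul (by norm_num)]
      congr 1
      ring

end sq

end Pool.Agent.Lib_helper33.Zo
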