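import Mathlib
import Pool.Agent.Lib_helper33.Zo.Meas

/-!
# Pull-back along Dirichlet arcs
-/

set_option autoImplicit false

namespace Pool.Agent.Lib_helper33.Zo

open MeasureTheory Set
open scoped ENNReal NNReal

/-- the corner entry in the angle coordinate, up to sign -/
noncomputable def zt (k : ℕ) (θ : ℝ) : ℝ := 2 * Real.tan (θ / 2) * Real.sin (k * θ)

lemma zt_hasDeriv (k : ℕ) {θ : ℝ} (h : Real.cos (θ / 2) ≠ 0) :
    HasDerivAt (zt k) (Real.sin (k * θ) / Real.cos (θ / 2) ^ 2 +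
      2 * Real.tan (θ / 2) * (k * Real.cos (k * θ))) θ := by
  have h1 : HasDerivAt (fun x : ℝ => x / 2) (1 / 2) θ := (hasDerivAt_id θ).div_const 2
  have h2 : HasDerivAt (fun x : ℝ => Real.tan (x / 2)) (1 / Real.cos (θ / 2) ^ 2 * (1 / 2)) θ :=
    HasDerivAt.comp (h₂ := Real.tan) θ (Real.hasDerivAt_tan h) h1
  have h3 : HasDerivAt (fun x : ℝ => (k : ℝ) * x) (k : ℝ) θ := by
    simpa using (hasDerivAt_id θ).const_mul (k : ℝ)
  have h4 : HasDerivAt (fun x : ℝ => Real.sin (k * x)) (Real.cos (k * θ) * k) θ := h3.sin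
  have h5 := (h2.const_mul 2).mul h4
  refine h5.congr_deriv ?_
  ring

lemma abs_sin_arc {k : ℕ} {j : ℤ} {θ σ : ℝ} (h : |(k : ℝ) * θ - j * Real.pi| ≤ σ) :
    |Real.sin (k * θ)| ≤ σ := by
  have e : (k : ℝ) * θ = (k * θ - j * Real.pi) + j * Real.pi := by ring
  rw [e, Real.sin_add_int_mul_pi]
  rw [abs_mul, abs_zpow, abs_neg, abs_one, one_zpow, one_mul]
  exact (Real.abs_sin_le_abs).trans h

lemma abs_cos_arc {k : ℕ} {j : ℤ} {θ σ : ℝ} (h : |(k : ℝ) * θ - j * Real.pi| ≤ σ)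
    (hσ : σ ≤ 1 / 2) : 7 / 8 ≤ |Real.cos (k * θ)| := by
  have e : (k : ℝ) * θ = (k * θ - j * Real.pi) + j * Real.pi := by ring
  rw [e, Real.cos_add_int_mul_pi]
  rw [abs_mul, abs_zpow, abs_neg, abs_one, one_zpow, one_mul]
  have h1 := Real.one_sub_sq_div_two_le_cos (x := (k : ℝ) * θ - j * Real.pi)
  have h2 : ((k : ℝ) * θ - j * Real.pi) ^ 2 ≤ (1 / 2) ^ 2 := by
    rw [← sq_abs]
    exact pow_le_pow_left₀ (abs_nonneg _) (h.trans hσ) 2
  have h3 := le_abs_self (Real.cos (k * θ - j * Real.pi))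
  linarith

section arc

variable {θ₁ θ₂ : ℝ} (h1 : 0 < θ₁) (h2 : θ₂ < Real.pi)
include h1 h2

lemma cos_half {x : ℝ} (hx : x ∈ Icc θ₁ θ₂) : 0 < Real.cos (θ₂ / 2) ∧
    Real.cos (θ₂ / 2) ≤ Real.cos (x / 2) ∧ Real.cos (x / 2) ≤ 1 := by
  obtain ⟨hx1, hx2⟩ := hx
  refine ⟨Real.cos_pos_of_mem_Ioo ⟨by linarith, by linarith⟩, ?_, Real.cos_le_one _⟩
  exact Real.cos_le_cos_of_nonneg_of_le_pi (by linarith) (by linarith) (by linarith)

lemma tan_half {x : ℝ} (hx : x ∈ Icc θ₁ θ₂) : 0 < Real.tan (θ₁ / 2) ∧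
    Real.tan (θ₁ / 2) ≤ Real.tan (x / 2) ∧ Real.tan (x / 2) ≤ Real.tan (θ₂ / 2) := by
  obtain ⟨hx1, hx2⟩ := hx
  refine ⟨Real.tan_pos_of_pos_of_lt_pi_div_two (by linarith) (by linarith), ?_, ?_⟩
  · exact Real.strictMonoOn_tan.monotoneOn ⟨by linarith, by linarith⟩ ⟨by linarith, by linarith⟩
      (by linarith)
  · exact Real.strictMonoOn_tan.monotoneOn ⟨by linarith, by linarith⟩ ⟨by linarith, by linarith⟩
      (by linarith)

lemma tan_near {x y σ : ℝ} (hx : x ∈ Icc θ₁ θ₂) (hy : y ∈ Icc θ₁ θ₂)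
    (hσ : σ ≤ Real.tan (θ₁ / 2) * Real.cos (θ₂ / 2) ^ 2 / 2) (hxy : |x - y| ≤ 2 * σ) :
    |Real.tan (x / 2) - Real.tan (y / 2)| ≤ Real.tan (θ₁ / 2) / 2 := by
  obtain ⟨c0, cx, cx1⟩ := cos_half h1 h2 hx
  obtain ⟨-, cy, cy1⟩ := cos_half h1 h2 hy
  have hcx : 0 < Real.cos (x / 2) := c0.trans_le cx
  have hcy : 0 < Real.cos (y / 2) := c0.trans_le cy
  have e : Real.tan (x / 2) - Real.tan (y / 2) =
      Real.sin (x / 2 - y / 2) / (Real.cos (x / 2) * Real.cos (y / 2)) := by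
    rw [Real.tan_eq_sin_div_cos, Real.tan_eq_sin_div_cos, Real.sin_sub]
    field_simp
  rw [e, abs_div, abs_of_pos (mul_pos hcx hcy), div_le_iff₀ (mul_pos hcx hcy)]
  have h3 : |Real.sin (x / 2 - y / 2)| ≤ σ := by
    refine (Real.abs_sin_le_abs).trans ?_
    have : x / 2 - y / 2 = (x - y) / 2 := by ring
    rw [this, abs_div, abs_of_pos (by norm_num : (0 : ℝ) < 2)]
    linarith
  have h4 : Real.cos (θ₂ / 2) ^ 2 ≤ Real.cos (x / 2) * Real.cos (y / 2) := by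
    rw [sq]
    exact mul_le_mul cx cy c0.le hcx.le
  have ht := (tan_half h1 h2 hx).1
  calc |Real.sin (x / 2 - y / 2)| ≤ σ := h3
    _ ≤ Real.tan (θ₁ / 2) * Real.cos (θ₂ / 2) ^ 2 / 2 := hσ
    _ = Real.tan (θ₁ / 2) / 2 * Real.cos (θ₂ / 2) ^ 2 := by ring
    _ ≤ _ := mul_le_mul_of_nonneg_left h4 (by linarith)

lemma deriv_arc {x σ : ℝ} (hx : x ∈ Icc θ₁ θ₂) (hσ1 : σ ≤ 1 / 2)
    (hσ : σ ≤ Real.tan (θ₁ / 2) * Real.cos (θ₂ / 2) ^ 2 / 2) {k : ℕ} (hk : 1 ≤ k) {j : ℤ}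
    (h : |(k : ℝ) * x - j * Real.pi| ≤ σ) :
    k * Real.tan (x / 2) ≤ |Real.sin (k * x) / Real.cos (x / 2) ^ 2 +
      2 * Real.tan (x / 2) * (k * Real.cos (k * x))| := by
  obtain ⟨c0, cx, cx1⟩ := cos_half h1 h2 hx
  obtain ⟨t0, tx, -⟩ := tan_half h1 h2 hx
  have hcx : 0 < Real.cos (x / 2) := c0.trans_le cx
  have htx : 0 < Real.tan (x / 2) := t0.trans_le tx
  have hk' : (1 : ℝ) ≤ k := by exact_mod_cast hk
  have h3 := abs_sin_arc h
  have h4 := abs_cos_arc h hσ1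
  have h5 : |Real.sin (k * x) / Real.cos (x / 2) ^ 2| ≤ Real.tan (θ₁ / 2) / 2 := by
    rw [abs_div, abs_of_pos (by positivity : 0 < Real.cos (x / 2) ^ 2), div_le_iff₀ (by positivity)]
    have h6 : Real.cos (θ₂ / 2) ^ 2 ≤ Real.cos (x / 2) ^ 2 := pow_le_pow_left₀ c0.le cx 2
    calc |Real.sin (k * x)| ≤ σ := h3
      _ ≤ Real.tan (θ₁ / 2) * Real.cos (θ₂ / 2) ^ 2 / 2 := hσ
      _ = Real.tan (θ₁ / 2) / 2 * Real.cos (θ₂ / 2) ^ 2 := by ring
      _ ≤ _ := mul_le_mul_of_nonneg_left h6 (by linarith)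
  have h6 : |2 * Real.tan (x / 2) * (k * Real.cos (k * x))| =
      2 * Real.tan (x / 2) * (k * |Real.cos (k * x)|) := by
    rw [abs_mul, abs_mul, abs_mul, abs_of_pos htx, abs_of_pos (by norm_num : (0 : ℝ) < 2),
      abs_of_nonneg (by positivity : (0 : ℝ) ≤ k)]
  have h7 : 2 * Real.tan (x / 2) * (k * (7 / 8)) ≤ 2 * Real.tan (x / 2) * (k * |Real.cos (k * x)|) := by
    apply mul_le_mul_of_nonneg_left _ (by positivity)
    exact mul_le_mul_of_nonneg_left h4 (by positivity)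
  have h8 := abs_sub_abs_le_abs_sub (2 * Real.tan (x / 2) * (k * Real.cos (k * x)))
    (-(Real.sin (k * x) / Real.cos (x / 2) ^ 2))
  rw [abs_neg, sub_neg_eq_add, h6] at h8
  rw [add_comm]
  have h9 : Real.tan (θ₁ / 2) ≤ k * Real.tan (x / 2) := by nlinarith
  nlinarith

end arc

section bad

variable {N : Set ℝ} {a b : ℝ}

lemma vol_S' (hN : MeasurableSet N) (hmul : ∀ x ∈ N, ∀ n : ℕ, 1 ≤ n → (n : ℝ) * x ∈ N)
    (ha : 0 < a) (hab : a < b) {v : ℝ} (hv : 0 < v) (hv2 : 2 * v ^ 2 ≤ b - a) :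
    volume ({u : ℝ | u ^ 2 ∈ N} ∩ Icc (-v) v) ≤
      ENNReal.ofReal (16 * v * (Real.sqrt b / Real.sqrt a) / (b - a)) * volume (N ∩ Ioo a b) := by
  have h1 := vol_S hN hmul ha hab hv hv2
  have h2 : volume ({u : ℝ | u ^ 2 ∈ N} ∩ Ico (-v) 0) ≤
      volume ({u : ℝ | u ^ 2 ∈ N} ∩ Ioc 0 v) := by
    have := vol_image_le' (f := fun u : ℝ => -u) (s := {u : ℝ | u ^ 2 ∈ N} ∩ Ioc 0 v) (K := 1)
      zero_le_one (by
        intro x _ y _
        rw [one_mul, ← abs_neg]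
        apply le_of_eq
        congr 1
        ring)
    rw [ENNReal.ofReal_one, one_mul] at this
    refine le_trans (measure_mono ?_) this
    rintro u ⟨hu, hu1, hu2⟩
    refine ⟨-u, ⟨?_, by linarith, by linarith⟩, by simp⟩
    change (-u) ^ 2 ∈ N
    rw [neg_sq]
    exact hu
  have h3 : {u : ℝ | u ^ 2 ∈ N} ∩ Icc (-v) v ⊆
      (({u : ℝ | u ^ 2 ∈ N} ∩ Ico (-v) 0) ∪ ({u : ℝ | u ^ 2 ∈ N} ∩ Ioc 0 v)) ∪ {0} := by
    rintro u ⟨hu, hu1, hu2⟩
    rcases lt_trichotomy u 0 with h | h | h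
    · exact Or.inl (Or.inl ⟨hu, hu1, h⟩)
    · exact Or.inr h
    · exact Or.inl (Or.inr ⟨hu, h, hu2⟩)
  calc volume ({u : ℝ | u ^ 2 ∈ N} ∩ Icc (-v) v)
      ≤ volume ((({u : ℝ | u ^ 2 ∈ N} ∩ Ico (-v) 0) ∪ ({u : ℝ | u ^ 2 ∈ N} ∩ Ioc 0 v)) ∪ {0}) :=
        measure_mono h3
    _ ≤ (volume ({u : ℝ | u ^ 2 ∈ N} ∩ Ico (-v) 0) +
          volume ({u : ℝ | u ^ 2 ∈ N} ∩ Ioc 0 v)) + volume ({0} : Set ℝ) :=
        (measure_union_le _ _).trans (add_le_add (measure_union_le _ _) le_rfl)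
    _ ≤ _ := by
        rw [Real.volume_singleton, add_zero]
        refine (add_le_add (h2.trans h1) h1).trans ?_
        rw [← add_mul, ← ENNReal.ofReal_add]
        · apply le_of_eq
          congr 2
          ring
        · have : 0 < b - a := by linarith
          positivity
        · have : 0 < b - a := by linarith
          positivity

/-- the bad set on one arc -/
def bad (N : Set ℝ) (θ₁ θ₂ σ : ℝ) (k : ℕ) (j : ℤ) : Set ℝ :=
  {θ | θ ∈ Icc θ₁ θ₂ ∧ |(k : ℝ) * θ - j * Real.pi| ≤ σ ∧ (zt k θ) ^ 2 ∈ N}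

lemma vol_bad (hN : MeasurableSet N) (hmul : ∀ x ∈ N, ∀ n : ℕ, 1 ≤ n → (n : ℝ) * x ∈ N)
    (ha : 0 < a) (hab : a < b) {θ₁ θ₂ σ : ℝ} (h1 : 0 < θ₁) (h2 : θ₂ < Real.pi)
    (hσ0 : 0 < σ) (hσ1 : σ ≤ 1 / 2)
    (hσ : σ ≤ Real.tan (θ₁ / 2) * Real.cos (θ₂ / 2) ^ 2 / 2)
    (hσ3 : 32 * σ ^ 2 * Real.tan (θ₂ / 2) ^ 2 ≤ b - a) {k : ℕ} (hk : 1 ≤ k) (j : ℤ) :
    volume (bad N θ₁ θ₂ σ k j) ≤
      ENNReal.ofReal (128 * σ / k * (Real.sqrt b / Real.sqrt a) / (b - a)) *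
        volume (N ∩ Ioo a b) := by
  rcases (bad N θ₁ θ₂ σ k j).eq_empty_or_nonempty with he | ⟨z, hz⟩
  · rw [he, measure_empty]
    exact zero_le
  have hk' : (1 : ℝ) ≤ k := by exact_mod_cast hk
  have hba : 0 < b - a := by linarith
  obtain ⟨hz1, hz2, -⟩ := hz
  obtain ⟨t0, tz, tz2⟩ := tan_half h1 h2 hz1
  set t : ℝ := Real.tan (z / 2) with ht
  have ht0 : 0 < t := t0.trans_le tz
  -- comparison of the tangents
  have hcmp : ∀ x ∈ Icc θ₁ θ₂, |(k : ℝ) * x - j * Real.pi| ≤ σ →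
      t / 2 ≤ Real.tan (x / 2) ∧ Real.tan (x / 2) ≤ 3 / 2 * t := by
    intro x hx hx2
    have h3 : |x - z| ≤ 2 * σ := by
      have e : (k : ℝ) * (x - z) = (k * x - j * Real.pi) - (k * z - j * Real.pi) := by ring
      have h4 : |(k : ℝ) * (x - z)| ≤ 2 * σ := by
        rw [e]
        exact (abs_sub _ _).trans (by linarith)
      rw [abs_mul, abs_of_nonneg (by positivity : (0 : ℝ) ≤ k)] at h4
      nlinarith [abs_nonneg (x - z)]
    have h5 := tan_near h1 h2 hx hz1 hσ h3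
    rw [abs_le] at h5
    constructor <;> linarith [h5.1, h5.2]
  have hexp := vol_le_of_expand (f := zt k) (s := bad N θ₁ θ₂ σ k j) (m := k * t / 2)
    (by positivity) (by
      have key : ∀ x ∈ bad N θ₁ θ₂ σ k j, ∀ y ∈ bad N θ₁ θ₂ σ k j, x < y →
          k * t / 2 * |x - y| ≤ |zt k x - zt k y| := by
        rintro x ⟨hx1, hx2, -⟩ y ⟨hy1, hy2, -⟩ hxy
        have hconv : ∀ w ∈ Icc x y, w ∈ Icc θ₁ θ₂ ∧ |(k : ℝ) * w - j * Real.pi| ≤ σ := by
          intro w hw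
          refine ⟨⟨hx1.1.trans hw.1, hw.2.trans hy1.2⟩, ?_⟩
          rw [abs_le] at hx2 hy2 ⊢
          constructor
          · nlinarith [hx2.1, hw.1]
          · nlinarith [hy2.2, hw.2]
        have hder : ∀ w ∈ Icc x y, HasDerivAt (zt k) (Real.sin (k * w) / Real.cos (w / 2) ^ 2 +
            2 * Real.tan (w / 2) * (k * Real.cos (k * w))) w := by
          intro w hw
          obtain ⟨c0, cx, -⟩ := cos_half h1 h2 (hconv w hw).1
          exact zt_hasDeriv k (c0.trans_le cx).ne'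
        obtain ⟨w, hw, hw2⟩ := exists_hasDerivAt_eq_slope (zt k) _ hxy
          (fun w hw => (hder w hw).continuousAt.continuousWithinAt)
          (fun w hw => hder w (Ioo_subset_Icc_self hw))
        have hwc := hconv w (Ioo_subset_Icc_self hw)
        have h3 := deriv_arc h1 h2 hwc.1 hσ1 hσ hk hwc.2
        rw [hw2] at h3
        have h4 := (hcmp w hwc.1 hwc.2).1
        have hyx : 0 < y - x := by linarith
        rw [abs_div, abs_of_pos hyx, le_div_iff₀ hyx] at h3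
        rw [abs_sub_comm x y, abs_of_pos hyx, abs_sub_comm (zt k x)]
        refine le_trans ?_ h3
        apply mul_le_mul_of_nonneg_right _ hyx.le
        nlinarith
      intro x hx y hy
      rcases lt_trichotomy x y with h | h | h
      · exact key x hx y hy h
      · rw [h]; simp
      · rw [abs_sub_comm x y, abs_sub_comm (zt k x)]
        exact key y hy x hx h)
  have himg : zt k '' (bad N θ₁ θ₂ σ k j) ⊆ {u : ℝ | u ^ 2 ∈ N} ∩ Icc (-(4 * σ * t)) (4 * σ * t) := by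
    rintro _ ⟨x, ⟨hx1, hx2, hx3⟩, rfl⟩
    refine ⟨hx3, ?_⟩
    have h3 : |zt k x| ≤ 4 * σ * t := by
      unfold zt
      have h4 := (hcmp x hx1 hx2)
      rw [abs_mul, abs_of_pos (by linarith : 0 < 2 * Real.tan (x / 2))]
      have h5 := abs_sin_arc hx2
      calc 2 * Real.tan (x / 2) * |Real.sin (k * x)| ≤ (2 * (3 / 2 * t)) * σ :=
            mul_le_mul (by linarith) h5 (abs_nonneg _) (by positivity)
        _ ≤ 4 * σ * t := by nlinarith [mul_pos ht0 hσ0]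
    rw [abs_le] at h3
    exact h3
  have hv2 : 2 * (4 * σ * t) ^ 2 ≤ b - a := by
    refine le_trans ?_ hσ3
    have : t ^ 2 ≤ Real.tan (θ₂ / 2) ^ 2 := pow_le_pow_left₀ ht0.le tz2 2
    nlinarith [sq_nonneg σ, mul_le_mul_of_nonneg_left this (sq_nonneg σ)]
  have hS := vol_S' hN hmul ha hab (by positivity : 0 < 4 * σ * t) hv2
  calc volume (bad N θ₁ θ₂ σ k j)
      ≤ ENNReal.ofReal (1 / (k * t / 2)) * volume (zt k '' (bad N θ₁ θ₂ σ k j)) := hexp
    _ ≤ ENNReal.ofReal (1 / (k * t / 2)) *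
        (ENNReal.ofReal (16 * (4 * σ * t) * (Real.sqrt b / Real.sqrt a) / (b - a)) *
          volume (N ∩ Ioo a b)) := mul_le_mul_right ((measure_mono himg).trans hS) _
    _ = _ := by
        rw [← mul_assoc, ← ENNReal.ofReal_mul (by positivity)]
        congr 2
        field_simp
        ring

/-- the union over the Dirichlet arcs -/
lemma vol_union (hN : MeasurableSet N) (hmul : ∀ x ∈ N, ∀ n : ℕ, 1 ≤ n → (n : ℝ) * x ∈ N)
    (ha : 0 < a) (hab : a < b) {θ₁ θ₂ : ℝ} (h1 : 0 < θ₁) (h2 : θ₂ < Real.pi) {K : ℕ}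
    (hK : 1 ≤ K) (hσ1 : Real.pi / (K + 1) ≤ 1 / 2)
    (hσ : Real.pi / (K + 1) ≤ Real.tan (θ₁ / 2) * Real.cos (θ₂ / 2) ^ 2 / 2)
    (hσ3 : 32 * (Real.pi / (K + 1)) ^ 2 * Real.tan (θ₂ / 2) ^ 2 ≤ b - a) :
    volume {θ | θ ∈ Icc θ₁ θ₂ ∧ ∀ k : ℕ, 1 ≤ k → k ≤ K → (zt k θ) ^ 2 ∈ N} ≤
      ENNReal.ofReal (256 * Real.pi * (Real.sqrt b / Real.sqrt a) / (b - a)) *
        volume (N ∩ Ioo a b) := by
  set σ : ℝ := Real.pi / (K + 1) with hσdef
  have hπ := Real.pi_pos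
  have hσ0 : 0 < σ := by positivity
  have hba : 0 < b - a := by linarith
  have hsub : {θ | θ ∈ Icc θ₁ θ₂ ∧ ∀ k : ℕ, 1 ≤ k → k ≤ K → (zt k θ) ^ 2 ∈ N} ⊆
      ⋃ k ∈ Finset.Icc 1 K, ⋃ j ∈ Finset.range (k + 1), bad N θ₁ θ₂ σ k (j : ℤ) := by
    rintro θ ⟨hθ, hk⟩
    obtain ⟨j, k, hk0, hkK, hjk⟩ := Real.exists_int_int_abs_mul_sub_le (θ / Real.pi)
      (n := K) (by omega)
    have hθ0 : 0 < θ / Real.pi := div_pos (by linarith [hθ.1]) hπ
    have hθ1 : θ / Real.pi < 1 := by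
      rw [div_lt_one hπ]
      linarith [hθ.2]
    have hK1 : 1 / ((K : ℝ) + 1) < 1 := by
      rw [div_lt_one (by positivity)]
      have : (1 : ℝ) ≤ K := by exact_mod_cast hK
      linarith
    have hk0' : (1 : ℝ) ≤ (k : ℝ) := by exact_mod_cast hk0
    have hj : 0 ≤ j ∧ j ≤ k := by
      rw [abs_le] at hjk
      constructor
      · have : (-1 : ℝ) < j := by nlinarith [hjk.2]
        have : (-1 : ℤ) < j := by exact_mod_cast this
        omega
      · have : (j : ℝ) < k + 1 := by nlinarith [hjk.1]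
        have : j < k + 1 := by exact_mod_cast this
        omega
    obtain ⟨k', rfl⟩ := Int.eq_ofNat_of_zero_le hk0.le
    obtain ⟨j', rfl⟩ := Int.eq_ofNat_of_zero_le hj.1
    simp only [mem_iUnion, exists_prop, Finset.mem_Icc, Finset.mem_range]
    refine ⟨k', ⟨by omega, by omega⟩, j', by omega, hθ, ?_, hk k' (by omega) (by omega)⟩
    have e : ((k' : ℕ) : ℝ) * θ - ((j' : ℕ) : ℤ) * Real.pi =
        Real.pi * (((k' : ℤ) : ℝ) * (θ / Real.pi) - ((j' : ℤ) : ℝ)) := by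
      push_cast
      field_simp
    rw [e, abs_mul, abs_of_pos hπ, hσdef, div_eq_mul_one_div Real.pi]
    exact mul_le_mul_of_nonneg_left hjk hπ.le
  calc volume {θ | θ ∈ Icc θ₁ θ₂ ∧ ∀ k : ℕ, 1 ≤ k → k ≤ K → (zt k θ) ^ 2 ∈ N}
      ≤ volume (⋃ k ∈ Finset.Icc 1 K, ⋃ j ∈ Finset.range (k + 1), bad N θ₁ θ₂ σ k (j : ℤ)) :=
        measure_mono hsub
    _ ≤ ∑ k ∈ Finset.Icc 1 K, volume (⋃ j ∈ Finset.range (k + 1), bad N θ₁ θ₂ σ k (j : ℤ)) :=
        measure_biUnion_finset_le _ _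
    _ ≤ ∑ k ∈ Finset.Icc 1 K, ∑ j ∈ Finset.range (k + 1), volume (bad N θ₁ θ₂ σ k (j : ℤ)) :=
        Finset.sum_le_sum fun k _ => measure_biUnion_finset_le _ _
    _ ≤ ∑ k ∈ Finset.Icc 1 K, ∑ j ∈ Finset.range (k + 1),
          ENNReal.ofReal (128 * σ / k * (Real.sqrt b / Real.sqrt a) / (b - a)) *
            volume (N ∩ Ioo a b) := by
        apply Finset.sum_le_sum
        intro k hk
        rw [Finset.mem_Icc] at hk
        apply Finset.sum_le_sum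
        intro j _
        exact vol_bad hN hmul ha hab h1 h2 hσ0 hσ1 hσ hσ3 hk.1 (j : ℤ)
    _ ≤ ∑ k ∈ Finset.Icc 1 K,
          ENNReal.ofReal (256 * σ * (Real.sqrt b / Real.sqrt a) / (b - a)) *
            volume (N ∩ Ioo a b) := by
        apply Finset.sum_le_sum
        intro k hk
        rw [Finset.mem_Icc] at hk
        have hk' : (1 : ℝ) ≤ k := by exact_mod_cast hk.1
        rw [Finset.sum_const, Finset.card_range, nsmul_eq_mul, ← mul_assoc]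
        apply mul_le_mul_left
        rw [← ENNReal.ofReal_natCast, ← ENNReal.ofReal_mul (by positivity)]
        apply ENNReal.ofReal_le_ofReal
        have e1 : (((k + 1 : ℕ) : ℝ)) * (128 * σ / k * (Real.sqrt b / Real.sqrt a) / (b - a)) =
            (((k + 1 : ℕ) : ℝ) / k) * (128 * σ * (Real.sqrt b / Real.sqrt a) / (b - a)) := by
          field_simp
        have e2 : 256 * σ * (Real.sqrt b / Real.sqrt a) / (b - a) =
            2 * (128 * σ * (Real.sqrt b / Real.sqrt a) / (b - a)) := by ring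
        rw [e1, e2]
        apply mul_le_mul_of_nonneg_right _ (by positivity)
        rw [div_le_iff₀ (by linarith)]
        push_cast
        linarith
    _ ≤ _ := by
        rw [Finset.sum_const, Nat.card_Icc, nsmul_eq_mul, ← mul_assoc]
        apply mul_le_mul_left
        rw [← ENNReal.ofReal_natCast, ← ENNReal.ofReal_mul (by positivity)]
        apply ENNReal.ofReal_le_ofReal
        have e1 : ((K + 1 - 1 : ℕ) : ℝ) * (256 * σ * (Real.sqrt b / Real.sqrt a) / (b - a)) =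
            ((K : ℝ) / (K + 1)) * (256 * Real.pi * (Real.sqrt b / Real.sqrt a) / (b - a)) := by
          rw [Nat.add_sub_cancel, hσdef]
          field_simp
        rw [e1]
        have h3 : (K : ℝ) / (K + 1) ≤ 1 := by
          rw [div_le_one (by positivity)]
          linarith
        calc ((K : ℝ) / (K + 1)) * (256 * Real.pi * (Real.sqrt b / Real.sqrt a) / (b - a))
            ≤ 1 * (256 * Real.pi * (Real.sqrt b / Real.sqrt a) / (b - a)) :=
              mul_le_mul_of_nonneg_right h3 (by positivity)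
          _ = _ := one_mul _

end bad

end Pool.Agent.Lib_helper33.Zo
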