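import Mathlib
import Pool.Agent.Lib_helper33.Zo.Alg
import Pool.Agent.Lib_helper33.Zo.Arc

/-!
# The quantitative zero-one law
-/

set_option autoImplicit false

namespace Pool.Agent.Lib_helper33.Zo

open MeasureTheory Set Pool.Agent.Lib_helper30.Syl
open scoped ENNReal NNReal

/-- the complement of the closure -/
def NN (d : ℕ) : Set ℝ := (closure (Rdeg d))ᶜ

lemma NN_meas (d : ℕ) : MeasurableSet (NN d) := isClosed_closure.isOpen_compl.measurableSet

lemma NN_mul (d : ℕ) : ∀ x ∈ NN d, ∀ n : ℕ, 1 ≤ n → (n : ℝ) * x ∈ NN d := by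
  intro x hx n hn hmem
  apply hx
  have hn0 : (n : ℤ) ≠ 0 := by
    have : n ≠ 0 := by omega
    exact_mod_cast this
  have := closure_div hn0 hmem
  have hn0' : (n : ℝ) ≠ 0 := by
    have : n ≠ 0 := by omega
    exact_mod_cast this
  have e : (n : ℝ) * x / ((n : ℤ) : ℝ) = x := by
    push_cast
    field_simp
  rw [e] at this
  exact this

lemma NN_neg (d : ℕ) {x : ℝ} (hx : x ∈ NN d) : -x ∈ NN d := by
  intro hmem
  apply hx
  have := closure_div (n := -1) (by norm_num) hmem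
  simpa using this

lemma NN_anti {d e : ℕ} (h : d ≤ e) : NN e ⊆ NN d := by
  intro x hx hmem
  exact hx (closure_mono (rdeg_mono h) hmem)

lemma zz_sq {k : ℕ} (hk : 1 ≤ k) {θ : ℝ} (h0 : 0 < θ) (h1 : θ < Real.pi) :
    (zz (k - 1) (2 - 2 * Real.cos θ)) ^ 2 = (zt k θ) ^ 2 := by
  have hs : 0 < Real.sin (θ / 2) := Real.sin_pos_of_pos_of_lt_pi (by linarith) (by linarith)
  have hc : 0 < Real.cos (θ / 2) := Real.cos_pos_of_mem_Ioo ⟨by linarith, by linarith⟩
  have h := zz_trig (k - 1) θ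
  have e1 : ((k - 1 : ℕ) : ℝ) + 1 = k := by
    have : k - 1 + 1 = k := by omega
    exact_mod_cast this
  have e2 : Real.sin θ = 2 * Real.sin (θ / 2) * Real.cos (θ / 2) := by
    rw [← Real.sin_two_mul]
    congr 1
    ring
  have e3 : Real.cos θ = 1 - 2 * Real.sin (θ / 2) ^ 2 := by
    have := Real.cos_two_mul (θ / 2)
    rw [show 2 * (θ / 2) = θ by ring] at this
    rw [this]
    have := Real.sin_sq_add_cos_sq (θ / 2)
    linarith
  rw [e1] at h
  have h2 : zz (k - 1) (2 - 2 * Real.cos θ) = -zt k θ := by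
    unfold zt
    rw [Real.tan_eq_sin_div_cos]
    have h3 : (2 * Real.sin (θ / 2) * Real.cos (θ / 2)) * zz (k - 1) (2 - 2 * Real.cos θ) =
        (2 * Real.sin (θ / 2) * Real.cos (θ / 2)) *
          (-(2 * (Real.sin (θ / 2) / Real.cos (θ / 2)) * Real.sin (k * θ))) := by
      rw [← e2, h, e2]
      rw [e3]
      field_simp
      ring
    exact mul_left_cancel₀ (by positivity) h3
  rw [h2, neg_sq]

/-- the region away from `0` -/
lemma far {a b : ℝ} (ha : 0 < a) (hab : a < b) {θ₁ θ₂ : ℝ} (h1 : 0 < θ₁) (h2 : θ₂ < Real.pi)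
    {K : ℕ} (hK : 1 ≤ K) (hσ1 : Real.pi / (K + 1) ≤ 1 / 2)
    (hσ : Real.pi / (K + 1) ≤ Real.tan (θ₁ / 2) * Real.cos (θ₂ / 2) ^ 2 / 2)
    (hσ3 : 32 * (Real.pi / (K + 1)) ^ 2 * Real.tan (θ₂ / 2) ^ 2 ≤ b - a) (d : ℕ) :
    volume ((fun θ : ℝ => 2 - 2 * Real.cos θ) '' Icc θ₁ θ₂ ∩ NN (2 * K * d)) ≤
      ENNReal.ofReal (512 * Real.pi * (Real.sqrt b / Real.sqrt a) / (b - a)) *
        volume (NN d ∩ Ioo a b) := by
  set Bd : Set ℝ := {θ | θ ∈ Icc θ₁ θ₂ ∧ ∀ k : ℕ, 1 ≤ k → k ≤ K → (zt k θ) ^ 2 ∈ NN d} with hBd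
  set Cr : Set ℝ := ⋃ j ∈ Finset.range K,
    {q : ℝ | Polynomial.aeval q (Polynomial.derivative (fp j)) = 0} with hCr
  have hCrfin : Cr.Finite := by
    rw [hCr]
    exact Set.Finite.biUnion (Finset.finite_toSet _) (fun j _ => finite_crit j)
  have hsub : (fun θ : ℝ => 2 - 2 * Real.cos θ) '' Icc θ₁ θ₂ ∩ NN (2 * K * d) ⊆
      (fun θ : ℝ => 2 - 2 * Real.cos θ) '' Bd ∪ Cr := by
    rintro _ ⟨⟨θ, hθ, rfl⟩, hN⟩
    by_cases hc : (2 - 2 * Real.cos θ) ∈ Cr
    · exact Or.inr hc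
    · left
      refine ⟨θ, ⟨hθ, ?_⟩, rfl⟩
      intro k hk hkK hmem
      apply hN
      have hθ0 : 0 < θ := h1.trans_le hθ.1
      have hθπ : θ < Real.pi := hθ.2.trans_lt h2
      rw [← zz_sq hk hθ0 hθπ] at hmem
      have hder : Polynomial.aeval (2 - 2 * Real.cos θ) (Polynomial.derivative (fp (k - 1))) ≠ 0 := by
        intro h0
        apply hc
        rw [hCr]
        simp only [mem_iUnion, exists_prop, Finset.mem_range]
        exact ⟨k - 1, by omega, h0⟩
      have h3 := pull_closure hder hmem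
      apply closure_mono (rdeg_mono _) h3
      apply Nat.mul_le_mul_right
      apply Nat.mul_le_mul_left
      omega
  have h3 := vol_union (NN_meas d) (NN_mul d) ha hab h1 h2 hK hσ1 hσ hσ3
  have h4 : volume ((fun θ : ℝ => 2 - 2 * Real.cos θ) '' Bd) ≤ ENNReal.ofReal 2 * volume Bd := by
    apply vol_image_le' (by norm_num)
    intro x _ y _
    have e : (2 - 2 * Real.cos x) - (2 - 2 * Real.cos y) = 2 * (Real.cos y - Real.cos x) := by ring
    rw [e, abs_mul, abs_of_pos (by norm_num : (0 : ℝ) < 2), abs_sub_comm x y]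
    apply mul_le_mul_of_nonneg_left _ (by norm_num)
    have := Real.abs_cos_sub_cos_le y x
    exact this
  calc volume ((fun θ : ℝ => 2 - 2 * Real.cos θ) '' Icc θ₁ θ₂ ∩ NN (2 * K * d))
      ≤ volume ((fun θ : ℝ => 2 - 2 * Real.cos θ) '' Bd ∪ Cr) := measure_mono hsub
    _ ≤ volume ((fun θ : ℝ => 2 - 2 * Real.cos θ) '' Bd) + volume Cr := measure_union_le _ _
    _ = volume ((fun θ : ℝ => 2 - 2 * Real.cos θ) '' Bd) := by
        rw [hCrfin.measure_zero, add_zero]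
    _ ≤ ENNReal.ofReal 2 * volume Bd := h4
    _ ≤ ENNReal.ofReal 2 * (ENNReal.ofReal (256 * Real.pi * (Real.sqrt b / Real.sqrt a) / (b - a)) *
        volume (NN d ∩ Ioo a b)) := mul_le_mul_right h3 _
    _ = _ := by
        rw [← mul_assoc, ← ENNReal.ofReal_mul (by norm_num)]
        congr 2
        ring

/-- the region near `0` -/
lemma near {a b : ℝ} (ha : 0 < a) (hab : a < b) {s : ℝ} (hs : 0 < s) (hs2 : 2 * s ≤ b - a)
    (d : ℕ) :
    volume (NN d ∩ Ioc 0 s) ≤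
      ENNReal.ofReal (16 * s * (Real.sqrt b / Real.sqrt a) / (b - a)) *
        volume (NN d ∩ Ioo a b) := by
  have hv : 0 < Real.sqrt s := Real.sqrt_pos.2 hs
  have hv2 : Real.sqrt s ^ 2 = s := Real.sq_sqrt hs.le
  have h1 := vol_S (NN_meas d) (NN_mul d) ha hab hv (by rw [hv2]; exact hs2)
  have h2 : volume ((fun u : ℝ => u ^ 2) '' ({u : ℝ | u ^ 2 ∈ NN d} ∩ Ioc 0 (Real.sqrt s))) ≤
      ENNReal.ofReal (2 * Real.sqrt s) * volume ({u : ℝ | u ^ 2 ∈ NN d} ∩ Ioc 0 (Real.sqrt s)) := by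
    apply vol_image_le' (by positivity)
    rintro x ⟨-, hx1, hx2⟩ y ⟨-, hy1, hy2⟩
    have e : x ^ 2 - y ^ 2 = (x + y) * (x - y) := by ring
    rw [e, abs_mul, abs_of_pos (by linarith : 0 < x + y)]
    apply mul_le_mul_of_nonneg_right _ (abs_nonneg _)
    linarith
  have h3 : NN d ∩ Ioc 0 s ⊆
      (fun u : ℝ => u ^ 2) '' ({u : ℝ | u ^ 2 ∈ NN d} ∩ Ioc 0 (Real.sqrt s)) := by
    rintro q ⟨hq, hq1, hq2⟩
    refine ⟨Real.sqrt q, ⟨?_, Real.sqrt_pos.2 hq1, Real.sqrt_le_sqrt hq2⟩, Real.sq_sqrt hq1.le⟩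
    change Real.sqrt q ^ 2 ∈ NN d
    rw [Real.sq_sqrt hq1.le]
    exact hq
  calc volume (NN d ∩ Ioc 0 s)
      ≤ volume ((fun u : ℝ => u ^ 2) '' ({u : ℝ | u ^ 2 ∈ NN d} ∩ Ioc 0 (Real.sqrt s))) :=
        measure_mono h3
    _ ≤ ENNReal.ofReal (2 * Real.sqrt s) *
        (ENNReal.ofReal (8 * Real.sqrt s * (Real.sqrt b / Real.sqrt a) / (b - a)) *
          volume (NN d ∩ Ioo a b)) := h2.trans (mul_le_mul_right h1 _)
    _ = _ := by
        rw [← mul_assoc, ← ENNReal.ofReal_mul (by positivity)]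
        congr 2
        have e : 2 * Real.sqrt s * (8 * Real.sqrt s * (Real.sqrt b / Real.sqrt a) / (b - a)) =
          16 * (Real.sqrt s ^ 2) * (Real.sqrt b / Real.sqrt a) / (b - a) := by ring
        rw [e, hv2]

lemma exists_small (c : ℝ) (hc : 0 < c) : ∃ K : ℕ, 1 ≤ K ∧ Real.pi / (K + 1) ≤ c := by
  obtain ⟨n, hn⟩ := exists_nat_gt (Real.pi / c)
  refine ⟨n + 1, by omega, ?_⟩
  rw [div_lt_iff₀ hc] at hn
  rw [div_le_iff₀ (by positivity)]
  push_cast
  nlinarith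

theorem main (a b δ : ℝ) (ha : 0 < a) (hab : a < b) (hδ : 0 < δ) :
    ∃ K : ℕ, ∀ d : ℕ, volume (Icc (-4 + δ) (4 - δ) \ closure (Rdeg (K * d))) ≤
      ENNReal.ofReal (10000 * (b / a) / (b - a)) * volume (Ioo a b \ closure (Rdeg d)) := by
  have hba : 0 < b - a := by linarith
  rcases le_or_gt 4 δ with h4 | h4
  · refine ⟨0, fun d => ?_⟩
    have : volume (Icc (-4 + δ) (4 - δ) \ closure (Rdeg (0 * d))) ≤ 0 := by
      refine (measure_mono sdiff_subset).trans ?_
      rw [Real.volume_Icc, ENNReal.ofReal_eq_zero.2 (by linarith)]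
    exact this.trans zero_le
  -- the angles
  set s : ℝ := min 1 ((b - a) / 2) with hs
  have hs0 : 0 < s := lt_min one_pos (by linarith)
  have hs1 : s ≤ 1 := min_le_left _ _
  have hs2 : s ≤ (b - a) / 2 := min_le_right _ _
  set θ₁ : ℝ := Real.arccos (1 - s / 2) with hθ₁
  set θ₂ : ℝ := Real.arccos (1 - (4 - δ) / 2) with hθ₂
  have h1 : 0 < θ₁ := Real.arccos_pos.2 (by linarith)
  have h2 : θ₂ < Real.pi := by
    have h3 : Real.arccos (1 - (4 - δ) / 2) < Real.arccos (-1) :=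
      Real.strictAntiOn_arccos ⟨by linarith, by linarith⟩ ⟨by linarith, by linarith⟩ (by linarith)
    rwa [Real.arccos_neg_one] at h3
  have hθ₂0 : 0 ≤ θ₂ := Real.arccos_nonneg _
  have hθ₁π : θ₁ ≤ Real.pi := Real.arccos_le_pi _
  have hθ₁π' : θ₁ < Real.pi := by
    have h3 : Real.arccos (1 - s / 2) < Real.arccos (-1) :=
      Real.strictAntiOn_arccos ⟨by linarith, by linarith⟩ ⟨by linarith, by linarith⟩ (by linarith)
    rwa [Real.arccos_neg_one] at h3
  have ht1 : 0 < Real.tan (θ₁ / 2) :=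
    Real.tan_pos_of_pos_of_lt_pi_div_two (by linarith) (by linarith)
  have hc2 : 0 < Real.cos (θ₂ / 2) := Real.cos_pos_of_mem_Ioo ⟨by linarith, by linarith⟩
  -- the choice of K
  set c : ℝ := min (min (1 / 2) (Real.tan (θ₁ / 2) * Real.cos (θ₂ / 2) ^ 2 / 2))
    (Real.sqrt ((b - a) / (32 * (Real.tan (θ₂ / 2) ^ 2 + 1)))) with hc
  have hc0 : 0 < c := by
    apply lt_min (lt_min (by norm_num) (by positivity))
    apply Real.sqrt_pos.2
    positivity
  obtain ⟨K, hK, hKc⟩ := exists_small c hc0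
  have hσ1 : Real.pi / (K + 1) ≤ 1 / 2 := hKc.trans ((min_le_left _ _).trans (min_le_left _ _))
  have hσ2 : Real.pi / (K + 1) ≤ Real.tan (θ₁ / 2) * Real.cos (θ₂ / 2) ^ 2 / 2 :=
    hKc.trans ((min_le_left _ _).trans (min_le_right _ _))
  have hσ3 : 32 * (Real.pi / (K + 1)) ^ 2 * Real.tan (θ₂ / 2) ^ 2 ≤ b - a := by
    have h3 : Real.pi / (K + 1) ≤ Real.sqrt ((b - a) / (32 * (Real.tan (θ₂ / 2) ^ 2 + 1))) :=
      hKc.trans (min_le_right _ _)
    have h4 : (Real.pi / (K + 1)) ^ 2 ≤ (b - a) / (32 * (Real.tan (θ₂ / 2) ^ 2 + 1)) := by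
      have h5 := pow_le_pow_left₀ (by positivity : (0 : ℝ) ≤ Real.pi / (K + 1)) h3 2
      rwa [Real.sq_sqrt (by positivity)] at h5
    rw [le_div_iff₀ (by positivity)] at h4
    nlinarith [sq_nonneg (Real.pi / (K + 1))]
  refine ⟨2 * K, fun d => ?_⟩
  set e := volume (NN d ∩ Ioo a b) with he
  set r : ℝ := Real.sqrt b / Real.sqrt a with hr
  have hfar := far ha hab h1 h2 hK hσ1 hσ2 hσ3 d
  have hnear := near ha hab hs0 (by linarith) d
  -- the positive half
  have hpos : volume (Ioc 0 (4 - δ) ∩ NN (2 * K * d)) ≤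
      ENNReal.ofReal (16 * s * r / (b - a) + 512 * Real.pi * r / (b - a)) * e := by
    have hsub : Ioc 0 (4 - δ) ∩ NN (2 * K * d) ⊆ (NN d ∩ Ioc 0 s) ∪
        ((fun θ : ℝ => 2 - 2 * Real.cos θ) '' Icc θ₁ θ₂ ∩ NN (2 * K * d)) := by
      rintro q ⟨⟨hq1, hq2⟩, hqN⟩
      rcases le_or_gt q s with hqs | hqs
      · left
        refine ⟨NN_anti ?_ hqN, hq1, hqs⟩
        calc d = 1 * d := (one_mul d).symm
          _ ≤ 2 * K * d := Nat.mul_le_mul_right d (by omega)
      · right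
        refine ⟨⟨Real.arccos (1 - q / 2), ⟨?_, ?_⟩, ?_⟩, hqN⟩
        · exact Real.antitone_arccos (by linarith)
        · exact Real.antitone_arccos (by linarith)
        · change 2 - 2 * Real.cos (Real.arccos (1 - q / 2)) = q
          rw [Real.cos_arccos (by linarith) (by linarith)]
          ring
    refine (measure_mono hsub).trans ((measure_union_le _ _).trans ?_)
    rw [ENNReal.ofReal_add (by positivity) (by positivity), add_mul]
    exact add_le_add hnear hfar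
  have hneg : volume (Ico (-(4 - δ)) 0 ∩ NN (2 * K * d)) ≤
      volume (Ioc 0 (4 - δ) ∩ NN (2 * K * d)) := by
    have h3 := vol_image_le' (f := fun u : ℝ => -u) (s := Ioc 0 (4 - δ) ∩ NN (2 * K * d)) (K := 1)
      zero_le_one (by
        intro x _ y _
        rw [one_mul, ← abs_neg]
        apply le_of_eq
        congr 1
        ring)
    rw [ENNReal.ofReal_one, one_mul] at h3
    refine le_trans (measure_mono ?_) h3
    rintro u ⟨⟨hu1, hu2⟩, huN⟩
    exact ⟨-u, ⟨⟨by linarith, by linarith⟩, NN_neg _ huN⟩, by simp⟩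
  have hsub : Icc (-4 + δ) (4 - δ) \ closure (Rdeg (2 * K * d)) ⊆
      ((Ico (-(4 - δ)) 0 ∩ NN (2 * K * d)) ∪ (Ioc 0 (4 - δ) ∩ NN (2 * K * d))) ∪ {0} := by
    rintro u ⟨⟨hu1, hu2⟩, huN⟩
    rcases lt_trichotomy u 0 with h | h | h
    · exact Or.inl (Or.inl ⟨⟨by linarith, h⟩, huN⟩)
    · exact Or.inr h
    · exact Or.inl (Or.inr ⟨⟨h, hu2⟩, huN⟩)
  have e1 : Ioo a b \ closure (Rdeg d) = NN d ∩ Ioo a b := by
    rw [inter_comm]
    rfl
  rw [e1, ← he]
  have hr1 : 1 ≤ r := by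
    rw [hr, one_le_div (Real.sqrt_pos.2 ha)]
    exact Real.sqrt_le_sqrt hab.le
  have hr2 : r ≤ b / a := by
    have h3 : r ^ 2 = b / a := by
      rw [hr, div_pow, Real.sq_sqrt (by linarith), Real.sq_sqrt ha.le]
    nlinarith
  calc volume (Icc (-4 + δ) (4 - δ) \ closure (Rdeg (2 * K * d)))
      ≤ volume (Ico (-(4 - δ)) 0 ∩ NN (2 * K * d)) + volume (Ioc 0 (4 - δ) ∩ NN (2 * K * d)) +
          volume ({0} : Set ℝ) := by
        refine (measure_mono hsub).trans ((measure_union_le _ _).trans ?_)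
        exact add_le_add (measure_union_le _ _) le_rfl
    _ ≤ ENNReal.ofReal (16 * s * r / (b - a) + 512 * Real.pi * r / (b - a)) * e +
        ENNReal.ofReal (16 * s * r / (b - a) + 512 * Real.pi * r / (b - a)) * e := by
        rw [Real.volume_singleton, add_zero]
        exact add_le_add (hneg.trans hpos) hpos
    _ ≤ _ := by
        rw [← add_mul, ← ENNReal.ofReal_add (by positivity) (by positivity)]
        apply mul_le_mul_left
        apply ENNReal.ofReal_le_ofReal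
        have hπ : Real.pi ≤ 4 := Real.pi_le_four
        have e2 : 16 * s * r / (b - a) + 512 * Real.pi * r / (b - a) +
            (16 * s * r / (b - a) + 512 * Real.pi * r / (b - a)) =
            (32 * s + 1024 * Real.pi) * r / (b - a) := by ring
        rw [e2]
        apply div_le_div_of_nonneg_right _ hba.le
        have h3 : 32 * s + 1024 * Real.pi ≤ 10000 := by linarith
        exact mul_le_mul h3 hr2 (by linarith) (by norm_num)

end Pool.Agent.Lib_helper33.Zo
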